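import Mathlib
import Pool.Agent.Run7.h988.PY.Fin
import Pool.Agent.Run7.h988.PY.Gen

/-!
# The parity conjecture and normal subgroups of odd order

`F/K` is a finite Galois extension of number fields with group `G`, `A/K` is an abelian variety and
`N` is a solvable normal subgroup of `G` with fixed field `F₀`. If the primes dividing the order of `N` are
congruent to `1` modulo `2 ^ (a + 1)`, where `2 ^ a` is the exponent of the Sylow `2`-subgroups of the group of
automorphisms of `N` induced by `G`, then for every intermediate field `L` the parity conjecture holds for `A`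
over `L` if and only if it holds over `L ∩ F₀`.
-/

set_option autoImplicit false

namespace Pool.Agent.Results.MP_ac3185_nt.OddLayers

open Pool.Agent.H541R3.ART Run7.h988.PY

/-- The Mordell-Weil group and the root numbers of an abelian variety `A/K` along a finite Galois
extension `F/K` with group `G`; the subgroup `H` stands for the intermediate field `F^H`. -/
structure AbVar (G : Type) [Group G] [Finite G] (V : Type) [AddCommGroup V] [Module ℚ V] where
  /-- the representation of `G` on `V = A(F) ⊗ ℚ` -/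
  ρ : Representation ℚ G V
  /-- the root numbers `w(A/K, χ)` of the Artin twists by the irreducible characters of `G` -/
  w : (G → ℂ) → ℂ
  /-- the root number `∏ w(A/L_v)` over `L = F^H` -/
  W : Subgroup G → ℂ
  /-- the root numbers of the twists by `χ` and by the complex conjugate of `χ` have product `1` -/
  dual : ∀ χ ∈ Irr G, w χ * w (fun g => (starRingEnd ℂ) (χ g)) = 1
  /-- Galois invariance (Rohrlich, Sabitova): for a real valued character `χ`, the twists by `χ` and by its
  conjugate `g ↦ χ (g ^ k)` have the same root number -/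
  galois : ∀ χ ∈ Irr G, (∀ g, (starRingEnd ℂ) (χ g) = χ g) → ∀ k : ℕ, Nat.Coprime (Nat.card G) k →
    w (fun g => χ (g ^ k)) = w χ
  /-- the root number over `F^H` is the product of the `w(A/K, χ)` to the power the dimension of the
  space of `H`-invariants of `χ` -/
  artin : ∀ H : Subgroup G, ∀ m : (G → ℂ) → ℕ,
    (∀ χ ∈ Irr G, (m χ : ℂ) = (Nat.card H : ℂ)⁻¹ * ∑ᶠ h : H, χ h) → W H = ∏ᶠ χ ∈ Irr G, w χ ^ m χ

variable {G : Type} [Group G] [Finite G] {V : Type} [AddCommGroup V] [Module ℚ V]

/-- the Mordell-Weil rank of `A` over `F^H`, the dimension of the `H`-invariants of `A(F) ⊗ ℚ` -/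
noncomputable def AbVar.rank (A : AbVar G V) (H : Subgroup G) : ℕ :=
  Module.finrank ℚ (Representation.invariants (A.ρ.comp H.subtype))

/-- the parity conjecture for `A` over `F^H` -/
def AbVar.Parity (A : AbVar G V) (H : Subgroup G) : Prop := (-1) ^ A.rank H = A.W H

/-- **Parity and solvable normal subgroups of odd order.** -/
theorem result [FiniteDimensional ℚ V] (A : AbVar G V) (N : Subgroup G) [N.Normal]
    (hsol : Group.IsSolvable N) (a : ℕ)
    (ha : ∀ g : G, (∃ b : ℕ, g ^ 2 ^ b = 1) → ∀ n ∈ N, g ^ 2 ^ a * n = n * g ^ 2 ^ a)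
    (hN : ∀ q : ℕ, q.Prime → q ∣ Nat.card N → q ≡ 1 [MOD 2 ^ (a + 1)]) :
    (∀ H : Subgroup G, A.Parity H ↔ A.Parity (H ⊔ N)) ∧
    (⁅(⊤ : Subgroup G), ⊤⁆ ≤ N → A.Parity ⊤ → (∀ H : Subgroup G, H.index = 2 → A.Parity H) →
      ∀ H : Subgroup G, A.Parity H) := by
  classical
  let τ : ℚ →+* ℂ := algebraMap ℚ ℂ
  let D : G → ℂ := fun g => τ (A.ρ.character g) + Dw A.w g
  have hpar : ∀ H : Subgroup G, A.Parity H ↔ Ev D H := fun H => parity τ A.ρ A.w A.dual H (A.W H) (A.artin H)
  have hD : Pool.Agent.W446.AS.Virt D := by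
    have h1 : D = (fun g => τ (A.ρ.character g)) + Dw A.w := rfl
    rw [h1]
    exact add_mem (virt_char τ A.ρ) (virt_Dw A.w)
  have hDk : ∀ k : ℕ, Nat.Coprime (Nat.card G) k → ∀ g, D (g ^ k) = D g := by
    intro k hk g
    change τ (A.ρ.character (g ^ k)) + Dw A.w (g ^ k) = _
    rw [rat_pow τ A.ρ hk, Dw_pow A.w hk (fun χ hχ hre => A.galois χ hχ hre k hk)]
  have hinv : ∀ g, D g⁻¹ = D g := by
    intro g
    obtain ⟨n, hn⟩ : ∃ n, Nat.card G = n + 1 := ⟨_, (Nat.succ_pred_eq_of_pos Nat.card_pos).symm⟩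
    have h1 : g ^ n = g⁻¹ := by
      rw [eq_inv_iff_mul_eq_one, ← pow_succ, ← hn, pow_card_eq_one']
    have h2 : Nat.Coprime (Nat.card G) n := by
      rw [hn]
      exact Nat.coprime_self_add_left.mpr (Nat.coprime_one_left n) |>.symm |>.symm
    rw [← h1, hDk n h2]
  obtain ⟨k, hk, hord⟩ := exists_gen (Nat.card G) Nat.card_pos.ne'
  have hq : ∀ q : ℕ, q.Prime → q ∣ Nat.card N → 2 ^ (a + 1) ∣ orderOf (k : ZMod q) := by
    intro q hq1 hq2
    rw [hord q hq1 (hq2.trans (Subgroup.card_subgroup_dvd_card N))]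
    exact (Nat.modEq_iff_dvd' hq1.one_le).mp (hN q hq1 hq2).symm
  refine ⟨fun H => ?_, fun hab h1 h2 H => ?_⟩
  · rw [hpar, hpar]
    exact tower_ev hD N hsol a k ha hk (hDk k hk) hq H
  · rw [hpar]
    exact abelian_base hD N hsol hab a k ha hk (hDk k hk) hinv hq ((hpar ⊤).mp h1)
      (fun U hU => (hpar U).mp (h2 U hU)) H

end Pool.Agent.Results.MP_ac3185_nt.OddLayers
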