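import Pool.Agent.Run7.h23.Gn.Zero
import Pool.Agent.Run7.h23.Gn.Idl
import Pool.Agent.Run7.h23.Rn.Nf

/-!
# The parity conjecture for a positive proportion of all odd hyperelliptic Jacobians, over all non-cyclic
# 2-extensions at the same time

Let `F` be a number field, `g ≥ 1`, and `K₀` any finite extension of `F`.

Theorem. There are a finite set `S` of primes of `F` (not over `2`, completely split in `K₀`) and `c > 0` such
that for all large `B` at least `c` times the number of ALL monic polynomials `f` of degree `2 g + 1` over `𝓞 F`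
without term of degree `2 g` and of height at most `B` are irreducible and minimal and have the following
property. For EVERY finite Galois extension `K / F` of 2-power degree in which
* the primes over `2`, the primes in `S` and the real places of `F` split completely,
* `f` is irreducible modulo every ramified prime,

the Jacobian `J` (of dimension `g`) of `y ^ 2 = f(x)` satisfies `J(K) = 0`, so `rk(J / K) = 0`, and `Ш(J / K)[2 ^ ∞] = 0`; and
if `Gal(K / F)` is not cyclic, then `∏_v w(J / K_v) = 1`. So Q1 holds for `J / K` for all these `K` together, in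
the form with `rk` and in the form with the corank of the 2-primary Selmer group.

The local root numbers are treated as follows: for a family of signs `w_𝔓 ∈ {1, -1}` of the finite primes of
`K` which is constant on the primes over each prime of `F` and is `1` at the primes of good reduction, and
with the signs `(-1) ^ g` at the infinite places, the product over all places is `1`. The local root numbers
`w(J / K_𝔓)` are such a family: `J` is defined over `F` and `K / F` is a Galois extension, so the completions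
at the primes over one prime of `F` are isomorphic over the completion of `F`; and the root number is `1` at
good reduction, and `(-1) ^ g` at infinity (see the problem). This is all that is used about root numbers.

Why the sign is `1`: over a prime which is unramified in `K` the decomposition group is cyclic, so it is not
the whole Galois group, and the number of primes over it is even; the ramified primes are primes of
good reduction; and the number of infinite places is even. What is deep is that the rank and the corank of the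
2-primary Selmer group are zero for all these `K` at once (that the corank is even is not known in general).

There is no bound on the degree of `K`, its Galois group (any non-cyclic 2-group) or the number of ramified
primes, and the conditions on `K` are stable under composita. For `g ≥ 2` this gives for every number field `F`
abelian varieties of dimension `g` which satisfy the parity conjecture over all the infinitely many fields `K`, in a
family of positive density.

The proof. `J(K)` uniquely 2-divisible and `Ш(J / K)[2 ^ ∞] = 0` for all the `K`: see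
`MP_a43263_nt.UniformOddHyperelliptic` (helper23, on top of the project PF of helper783); `J(K) = 0`: see
`MP_7ede32_ag.OneSetAllTwoExtensions`. New here is the sign (`Run7/h23/Rn`: the number of primes over an
unramified prime in a non-cyclic 2-extension; helper23) and the parity statement.
-/

set_option autoImplicit false
set_option linter.all false

namespace Pool.Agent.Results.MP_ac3185_nt.ParityAllTwoExtensions

open Filter NumberField IsDedekindDomain Polynomial
open Pool.Agent.N874.Jac (ShaTwoTrivialReal)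
open scoped Classical

section defs

variable (F : Type) [Field F] [NumberField F]

/-- All monic polynomials of degree `2 g + 1` with coefficients in the ring of integers of `F`, without term
of degree `2 g`, such that all conjugates of the coefficient of `x ^ j` have absolute value at
most `B ^ (2 g + 1 - j)`. -/
def Polys (g B : ℕ) : Set ((𝓞 F)[X]) :=
  {f | f.Monic ∧ f.natDegree = 2 * g + 1 ∧ f.coeff (2 * g) = 0 ∧
    ∀ j ≤ 2 * g, ∀ σ : F →+* ℂ, ‖σ (f.coeff j : F)‖ ≤ (B : ℝ) ^ (2 * g + 1 - j)}

variable {F}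

/-- The polynomial over the extension `K` of `F`. -/
noncomputable def overK (K : Type) [Field K] [Algebra F K] (f : (𝓞 F)[X]) : K[X] :=
  (f.map (algebraMap (𝓞 F) F)).map (algebraMap F K)

/-- The equation `y ^ 2 = f(x)` is minimal: there is no prime `𝔭` such that `𝔭 ^ (2 i)` divides the coefficient
of `x ^ (2 g + 1 - i)` for all `i > 0`. -/
def IsMinimal (g : ℕ) (f : (𝓞 F)[X]) : Prop :=
  ∀ 𝔭 : Ideal (𝓞 F), 𝔭.IsPrime → 𝔭 ≠ ⊥ → ¬ ∀ j ≤ 2 * g, f.coeff j ∈ 𝔭 ^ (2 * (2 * g + 1 - j))

/-- `f` is irreducible modulo the prime `𝔭`. -/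
def IrreducibleMod (𝔭 : HeightOneSpectrum (𝓞 F)) (f : (𝓞 F)[X]) : Prop :=
  Irreducible (f.map (Ideal.Quotient.mk 𝔭.asIdeal))

variable (K : Type) [Field K] [NumberField K] [Algebra F K]

/-- The prime `𝔭` of `F` splits completely in `K`: for every prime `𝔓` over `𝔭` the square of `𝔓` does not divide
`𝔭` and every integer of `K` is congruent to an integer of `F` modulo `𝔓`. -/
def SplitsCompletely (𝔭 : HeightOneSpectrum (𝓞 F)) : Prop :=
  ∀ 𝔓 : HeightOneSpectrum (𝓞 K), 𝔭.asIdeal.map (algebraMap (𝓞 F) (𝓞 K)) ≤ 𝔓.asIdeal →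
    ¬ 𝔭.asIdeal.map (algebraMap (𝓞 F) (𝓞 K)) ≤ 𝔓.asIdeal ^ 2 ∧
      ∀ y : 𝓞 K, ∃ x : 𝓞 F, y - algebraMap (𝓞 F) (𝓞 K) x ∈ 𝔓.asIdeal

/-- The prime `𝔭` of `F` is ramified in `K`. -/
def Ramified (𝔭 : HeightOneSpectrum (𝓞 F)) : Prop :=
  ∃ 𝔓 : HeightOneSpectrum (𝓞 K), 𝔭.asIdeal.map (algebraMap (𝓞 F) (𝓞 K)) ≤ 𝔓.asIdeal ^ 2

/-- The conditions on the Galois extension `K / F`: the degree is a power of two, the primes over `2`, the
primes in `S` and the real places (for a Galois extension: every embedding of `F` in `ℝ` extends to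
`K`) split completely, and `f` is irreducible modulo every ramified prime. -/
structure Allowed (S : Finset (HeightOneSpectrum (𝓞 F))) (f : (𝓞 F)[X]) : Prop where
  degree : ∃ n : ℕ, Module.finrank F K = 2 ^ n
  two : ∀ 𝔭 : HeightOneSpectrum (𝓞 F), (2 : 𝓞 F) ∈ 𝔭.asIdeal → SplitsCompletely K 𝔭
  split : ∀ 𝔭 ∈ S, SplitsCompletely K 𝔭
  real : ∀ ρ : F →+* ℝ, ∃ τ : K →+* ℝ, ∀ x : F, τ (algebraMap F K x) = ρ x
  ramified : ∀ 𝔭 : HeightOneSpectrum (𝓞 F), Ramified K 𝔭 → IrreducibleMod 𝔭 f

/-- The affine coordinate ring `K[x, y] / (y ^ 2 - f(x))` of the curve over `K`. -/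
abbrev CoordRing (f : (𝓞 F)[X]) : Type := AdjoinRoot (X ^ 2 - C (overK K f) : K[X][X])

/-- A family of signs of the finite primes of `K` with the properties of the local root numbers of the Jacobian of
`y ^ 2 = f(x)`, which is defined over `F`. -/
structure LocalSigns (f : (𝓞 F)[X]) where
  /-- the sign of a finite prime -/
  sign : HeightOneSpectrum (𝓞 K) → ℤˣ
  /-- it depends only on the prime of `F` below -/
  galois : ∀ 𝔓 𝔔 : HeightOneSpectrum (𝓞 K), 𝔓.asIdeal.comap (algebraMap (𝓞 F) (𝓞 K)) =
    𝔔.asIdeal.comap (algebraMap (𝓞 F) (𝓞 K)) → sign 𝔓 = sign 𝔔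
  /-- it is `1` at the primes of good reduction: not over `2`, and `f` has no multiple zeros modulo `𝔓` -/
  good : ∀ 𝔓 : HeightOneSpectrum (𝓞 K), (2 : 𝓞 K) ∉ 𝔓.asIdeal →
    ((f.map (algebraMap (𝓞 F) (𝓞 K))).map (Ideal.Quotient.mk 𝔓.asIdeal)).Separable → sign 𝔓 = 1

/-- The product of all the signs, with the sign `(-1) ^ g` at every infinite place. -/
noncomputable def rootNumber (g : ℕ) {f : (𝓞 F)[X]} (W : LocalSigns K f) : ℤˣ :=
  (∏ᶠ 𝔓, W.sign 𝔓) * ((-1) ^ g) ^ Fintype.card (InfinitePlace K)

/-- The property of `f` and `K`: `J(K) = 0` (all ideals of the coordinate ring are principal), the 2-primary part of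
the Tate-Shafarevich group is zero, and the root number is `1` if the Galois group is not cyclic. -/
structure Parity (g : ℕ) (f : (𝓞 F)[X]) : Prop where
  principal : IsPrincipalIdealRing (CoordRing K f)
  sha : ShaTwoTrivialReal (overK K f) (𝓞 K)
  sign : ¬ IsCyclic (K ≃ₐ[F] K) → ∀ W : LocalSigns K f, rootNumber K g W = 1

/-- The property of `f` in the theorem. -/
def Uniform (S : Finset (HeightOneSpectrum (𝓞 F))) (g : ℕ) (f : (𝓞 F)[X]) : Prop :=
  ∀ (K : Type) [Field K] [NumberField K] [Algebra F K] [IsGalois F K], Allowed K S f →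
    Parity K g f

end defs

theorem ht_iff {F : Type} [Field F] [NumberField F] (g B : ℕ) (f : (𝓞 F)[X]) :
    Pool.Agent.N783.PF.Ht g B f ↔ f ∈ Polys F g B :=
  ⟨fun h => ⟨h.mon, h.deg, h.tr, h.ht⟩, fun h => ⟨h.1, h.2.1, h.2.2.1, h.2.2.2⟩⟩

theorem mem (F : Type) [Field F] [NumberField F] (g B : ℕ) : (X ^ (2 * g + 1) : (𝓞 F)[X]) ∈ Polys F g B := by
  refine ⟨monic_X_pow _, natDegree_X_pow _, ?_, fun j hj σ => ?_⟩
  · rw [coeff_X_pow, if_neg (by omega)]
  · rw [coeff_X_pow, if_neg (by omega)]
    simp

/-- At a prime over a prime modulo which `f` is irreducible the reduction is good. -/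
theorem sep_of_irr {F K : Type} [Field F] [NumberField F] [Field K] [NumberField K] [Algebra F K]
    {f : (𝓞 F)[X]} (𝔓 : HeightOneSpectrum (𝓞 K)) (v : HeightOneSpectrum (𝓞 F))
    (hv : v.asIdeal = 𝔓.asIdeal.comap (algebraMap (𝓞 F) (𝓞 K))) (h : IrreducibleMod v f) :
    ((f.map (algebraMap (𝓞 F) (𝓞 K))).map (Ideal.Quotient.mk 𝔓.asIdeal)).Separable := by
  haveI := v.isMaximal
  letI : Field (𝓞 F ⧸ v.asIdeal) := Ideal.Quotient.field _
  haveI : Finite (𝓞 F ⧸ v.asIdeal) := Ideal.finiteQuotientOfFreeOfNeBot v.asIdeal v.ne_bot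
  have h1 : (f.map (Ideal.Quotient.mk v.asIdeal)).Separable := PerfectField.separable_of_irreducible h
  have h2 := h1.map (f := Ideal.quotientMap 𝔓.asIdeal (algebraMap (𝓞 F) (𝓞 K)) hv.le)
  have e : (f.map (Ideal.Quotient.mk v.asIdeal)).map
      (Ideal.quotientMap 𝔓.asIdeal (algebraMap (𝓞 F) (𝓞 K)) hv.le) =
      (f.map (algebraMap (𝓞 F) (𝓞 K))).map (Ideal.Quotient.mk 𝔓.asIdeal) := by
    rw [Polynomial.map_map, Polynomial.map_map]
    congr 1
  rwa [e] at h2

theorem sign_one {F K : Type} [Field F] [NumberField F] [Field K] [NumberField K] [Algebra F K]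
    [IsGalois F K] {S : Finset (HeightOneSpectrum (𝓞 F))} {f : (𝓞 F)[X]} {g : ℕ}
    (hK : Allowed K S f) (hnc : ¬ IsCyclic (K ≃ₐ[F] K)) (W : LocalSigns K f) :
    rootNumber K g W = 1 := by
  obtain ⟨n, hn⟩ := hK.degree
  have h1 : ∏ᶠ 𝔓, W.sign 𝔓 = 1 := by
    refine Run7.h23.Rn.finprod_one
      (fun 𝔓 : HeightOneSpectrum (𝓞 K) => 𝔓.asIdeal.comap (algebraMap (𝓞 F) (𝓞 K))) W.sign
      (fun P Q h => W.galois P Q h) (fun P hP => ?_)
    refine Run7.h23.Rn.even_nf hn hnc P fun hram => hP ?_
    have hv0 : P.asIdeal.comap (algebraMap (𝓞 F) (𝓞 K)) ≠ ⊥ :=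
      Ideal.IsIntegralClosure.comap_ne_bot (A := 𝓞 K) (R := 𝓞 F) P.ne_bot
    haveI := P.isPrime
    let v : HeightOneSpectrum (𝓞 F) := ⟨_, Ideal.comap_isPrime (algebraMap (𝓞 F) (𝓞 K)) P.asIdeal, hv0⟩
    refine W.good P (fun h2 => ?_) (sep_of_irr P v rfl (hK.ramified v ⟨P, hram⟩))
    have h2v : (2 : 𝓞 F) ∈ v.asIdeal := by
      show (2 : 𝓞 F) ∈ P.asIdeal.comap (algebraMap (𝓞 F) (𝓞 K))
      rw [Ideal.mem_comap, map_ofNat]
      exact h2
    exact (hK.two v h2v P Ideal.map_comap_le).1 hram
  obtain ⟨m, hm⟩ := Run7.h23.Rn.even_inf hn hnc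
  rw [rootNumber, h1, one_mul, hm, pow_add, ← mul_pow, Int.units_mul_self, one_pow]

/-- For every number field `F`, every `g ≥ 1` and every finite extension `K₀` of `F` there are a finite set `S` of
primes of `F`, not over `2` and completely split in `K₀`, and `c > 0` such that for all large `B` at least `c`
times the number of all monic polynomials `f` of degree `2 g + 1` over the ring of integers without term of degree
`2 g` and of height at most `B` are irreducible over `F`, minimal, and have the property: for EVERY finite Galois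
extension `K` of `F` of 2-power degree in which the primes over `2`, the primes in `S` and the real places split
completely and modulo the ramified primes of which `f` is irreducible, `J(K) = 0` for the Jacobian `J` of
`y ^ 2 = f(x)` (the ring `K[x, y] / (y ^ 2 - f(x))` is a principal ideal ring), `Ш(J / K)[2 ^ ∞] = 0`, and, if the Galois
group of `K / F` is not cyclic, the product over all places of `K` of the signs is `1` for every family of signs with
the properties of the local root numbers of `J`. -/
theorem result (F : Type) [Field F] [NumberField F] (g : ℕ) (hg : 1 ≤ g)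
    (K₀ : Type) [Field K₀] [NumberField K₀] [Algebra F K₀] :
    ∃ S : Finset (HeightOneSpectrum (𝓞 F)),
      (∀ 𝔭 ∈ S, (2 : 𝓞 F) ∉ 𝔭.asIdeal ∧ SplitsCompletely K₀ 𝔭) ∧
      ∃ c : ℝ, 0 < c ∧ ∀ᶠ B : ℕ in atTop,
        (Polys F g B).Finite ∧ 0 < (Polys F g B).ncard ∧
        c * ((Polys F g B).ncard : ℝ) ≤
          (({f ∈ Polys F g B | Irreducible (f.map (algebraMap (𝓞 F) F)) ∧ IsMinimal g f ∧
            Uniform S g f}).ncard : ℝ) := by
  obtain ⟨S, hS, c, hc, B₀, h⟩ := Run7.h23.Gn.mainI2 g F hg ∅ K₀
  refine ⟨S, fun v hv => ?_, c, hc, ?_⟩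
  · obtain ⟨h1, h2, h3⟩ := hS v hv
    exact ⟨h1, Run7.h23.Gn.spI_of_sp h3⟩
  filter_upwards [eventually_ge_atTop B₀] with B hB
  obtain ⟨hfin, hle⟩ := h B hB
  have hset : {f : (𝓞 F)[X] | Pool.Agent.N783.PF.Ht g B f} = Polys F g B := by
    ext f
    exact ht_iff g B f
  rw [hset] at hfin hle
  refine ⟨hfin, (Set.ncard_pos hfin).2 ⟨_, mem F g B⟩, hle.trans ?_⟩
  have h3 : {f : (𝓞 F)[X] | Pool.Agent.N783.PF.Ht g B f ∧
      Irreducible (Pool.Agent.N783.PF.fF f) ∧ Pool.Agent.N783.PF.Min g f ∧
      Run7.h23.Gn.GoodP S ∅ f ∧ ∀ v : HeightOneSpectrum (𝓞 F), (2 : 𝓞 F) ∈ v.asIdeal →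
        Run7.h23.Lo.RegAt v g f} ⊆
      {f ∈ Polys F g B | Irreducible (f.map (algebraMap (𝓞 F) F)) ∧ IsMinimal g f ∧
        Uniform S g f} := by
    rintro f ⟨hf, hi, hm, hg', hR⟩
    refine ⟨(ht_iff g B f).1 hf, hi, hm, ?_⟩
    intro K _ _ _ _ hK
    obtain ⟨n, hn⟩ := hK.degree
    obtain ⟨h4, h5⟩ := hg' K n hn (fun v hv => Run7.h23.Gn.sp_of_spI (hK.two v hv))
      (fun v hv => Run7.h23.Gn.sp_of_spI (hK.split v hv)) hK.real
      (fun v hv => Or.inr (hK.ramified v (by
        by_contra hc
        exact hv (Run7.h23.Gn.un_of_not hc))))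
    have h6 := Pool.Agent.N783.PF.jac (f := f.map (algebraMap (𝓞 F) (𝓞 K))) (hf.mon.map _)
      (by rw [hf.mon.natDegree_map, hf.deg]; exact odd_two_mul_add_one g) h4 h5
    rw [Run7.h23.Gn.fF_map] at h6 h4
    have hP : (f.map (algebraMap (𝓞 F) (𝓞 K))).map (algebraMap (𝓞 K) K) = overK K f :=
      Run7.h23.Gn.fF_map f
    have h7 := Run7.h23.Gn.cls_zero (K := K) hf.mon hf.deg hR
      (fun v hv w hw => (hK.two v hv w hw).1) hP h4 h6.1
    have hPm : (overK K f).Monic := by rw [← hP]; exact (hf.mon.map _).map _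
    have hPd : (overK K f).natDegree = 2 * g + 1 := by
      rw [← hP, (hf.mon.map _).natDegree_map, hf.mon.natDegree_map, hf.deg]
    have hG := Run7.h23.Gn.good_of hPm h4 (by rw [hPd]; exact odd_two_mul_add_one g)
    haveI := Pool.Agent.Y160.SE.hyps.ring 2 K (-1) _ hG
    refine ⟨⟨fun I => ?_⟩, h6.2, fun hnc W => sign_one hK hnc W⟩
    by_cases hI : I = ⊥
    · rw [hI]; infer_instance
    · obtain ⟨z, hz⟩ := Run7.h23.Lo.principal_of_eqv (h7 I hI)
      exact ⟨z, by rw [Ideal.submodule_span_eq]; exact hz⟩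
  have h4 := Set.ncard_le_ncard h3 (hfin.subset fun f hf => hf.1)
  exact_mod_cast h4

end Pool.Agent.Results.MP_ac3185_nt.ParityAllTwoExtensions
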