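import Pool.Agent.N922.PX.Final
import Pool.Agent.N922.PX.Ex
import Pool.Agent.H64R2.DD_MWK
import Pool.Agent.Run7.h262.PO.Root
import Pool.Agent.Run7.h262.PO.Pts

/-!
# The parity conjecture over all odd extensions of a Galois 2-extension `M / ℚ`, simultaneously, for a
# positive proportion of all elliptic curves over `ℚ`

Problem `MP_ac3185_nt`, question Q1 (the parity conjecture for abelian varieties), for elliptic curves;
the assertion for `E` over `L` gives the one for all powers of `E` over `L`. This theorem of helper262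
was first handed in for `MP_02f36d_nt.ParityOverOddExtensions` (elliptic curves).

Let `M / ℚ` be a Galois extension of degree `2 ^ n`, `n ≥ 1`, in which the prime `2` is unramified and
not inert.

Theorem. Among ALL elliptic curves `E / ℚ`, ordered by height, a positive proportion satisfies the
parity conjecture over ALL number fields `L` which contain `M`, have odd degree over `M` and are Galois
over `ℚ`: the rank of `E(L)` is even and `w(E / L) = 1`. (So the Galois group of `L` has a normal
subgroup of odd order such that the quotient is the Galois group of `M`; for given `M` these are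
infinitely many fields of unbounded degree, for example all the composita of `M` and of the Galois
extensions of `ℚ` of odd degree, and for quadratic `M` also all dihedral extensions of degree
`2 m`, `m` odd. The curves do not depend on `L`.)

The starting file `ParityOverTwoExtensions` is the case `L = M`, where `E(M) = 0`. The rank of `E(L)` is
not known and not zero in general; only its parity is proved.

As in this file, the local root numbers `w(E / L_v)` are signs, `1` for good reduction, `-1` for split
multiplicative reduction, and the same for conjugate primes of `L`, since `E` is defined over `ℚ`. We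
use only these properties.

The proof. (1) The rank: an integral representation of a group `G` of odd order without invariants has
even degree, since the sum of the traces of the elements of `G` is zero and the traces of `g` and of
`g⁻¹` are the same; this is applied to `E(L)` and `G = Gal(L / M)`, where `E(L) ^ G = E(M) = 0` by the
theorem of the starting files. (2) Let `w` be a system of local root numbers over `L`. Since it is
constant on the primes over a prime of `M`, it defines a function on the primes of `M`. This is again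
a system of local root numbers (automorphisms of `M` extend to `L`; the type of the reduction does not
change from `M` to `L`), and since the number of the primes of `L` over a prime of `M` and the number
of the infinite places over an infinite place are odd, `w(E / L) = w(E / M)`, which is `1` by the starting
files (project PX of helper922).
-/

set_option autoImplicit false
set_option linter.all false

namespace Pool.Agent.Results.MP_ac3185_nt.ParityOverOddExtensions

open Filter NumberField IsDedekindDomain
open scoped Classical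

/-- The equation `y ^ 2 = x ^ 3 + A x + B` with integers `A`, `B` defines an elliptic curve, and
there is no prime `p` with `p ^ 4 ∣ A` and `p ^ 6 ∣ B`. Every elliptic curve over `ℚ` is isomorphic to
exactly one of these. -/
structure IsMinimal (A B : ℤ) : Prop where
  elliptic : 4 * A ^ 3 + 27 * B ^ 2 ≠ 0
  minimal : ∀ p : ℕ, p.Prime → ¬ ((p : ℤ) ^ 4 ∣ A ∧ (p : ℤ) ^ 6 ∣ B)

/-- The height. -/
def height (p : ℤ × ℤ) : ℤ := max (4 * |p.1| ^ 3) (27 * p.2 ^ 2)

/-- The set of all elliptic curves over `ℚ` of height at most `X`. -/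
def Curves (X : ℕ) : Set (ℤ × ℤ) := {p | IsMinimal p.1 p.2 ∧ height p ≤ X}

/-- The curve `y ^ 2 = x ^ 3 + A x + B` over `ℚ`. -/
def curve (p : ℤ × ℤ) : WeierstrassCurve ℚ := ⟨0, 0, 0, (p.1 : ℚ), (p.2 : ℚ)⟩

section defs

variable {F : Type} [Field F] [NumberField F]

/-- The coefficients of the equation are integral at the prime `v`. -/
structure IntegralAt (v : HeightOneSpectrum (𝓞 F)) (W : WeierstrassCurve F) : Prop where
  a₁ : v.valuation F W.a₁ ≤ 1
  a₂ : v.valuation F W.a₂ ≤ 1
  a₃ : v.valuation F W.a₃ ≤ 1
  a₄ : v.valuation F W.a₄ ≤ 1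
  a₆ : v.valuation F W.a₆ ≤ 1

/-- Good reduction at `v`: there is a Weierstrass equation with coefficients integral at `v` whose
discriminant is a unit at `v`. -/
def GoodReduction (v : HeightOneSpectrum (𝓞 F)) (W : WeierstrassCurve F) : Prop :=
  ∃ C : WeierstrassCurve.VariableChange F, IntegralAt v (C • W) ∧ v.valuation F (C • W).Δ = 1

/-- Split multiplicative reduction at `v`: there is a Weierstrass equation with coefficients
integral at `v` whose reduction has the singular point `(0, 0)` (`a₃`, `a₄`, `a₆` are zero modulo `v`),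
which is a node (`b₂ = a₁ ^ 2 + 4 a₂` is a unit at `v`) with tangents `y = α x` defined over the residue
field (`α ^ 2 + a₁ α - a₂` is zero modulo `v`). -/
def SplitMultiplicative (v : HeightOneSpectrum (𝓞 F)) (W : WeierstrassCurve F) : Prop :=
  ∃ C : WeierstrassCurve.VariableChange F, IntegralAt v (C • W) ∧
    v.valuation F (C • W).a₃ < 1 ∧ v.valuation F (C • W).a₄ < 1 ∧ v.valuation F (C • W).a₆ < 1 ∧
    v.valuation F (C • W).b₂ = 1 ∧
    ∃ α : F, v.valuation F α ≤ 1 ∧
      v.valuation F (α ^ 2 + (C • W).a₁ * α - (C • W).a₂) < 1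

variable (F)

/-- The properties of the local root numbers `w(E / F_v)` at the primes `v` of `F`, for an elliptic
curve `E` over `ℚ`, which we use: they are signs, `1` for good reduction, `-1` for split multiplicative
reduction, and the same for conjugate primes. -/
structure LocalRootNumbers (E : WeierstrassCurve ℚ) (w : HeightOneSpectrum (𝓞 F) → ℤ) :
    Prop where
  sign : ∀ v, w v = 1 ∨ w v = -1
  good : ∀ v, GoodReduction v (E.baseChange F) → w v = 1
  split : ∀ v, SplitMultiplicative v (E.baseChange F) → w v = -1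
  conj : ∀ (σ : F ≃ₐ[ℚ] F) (v v' : HeightOneSpectrum (𝓞 F)),
    (∀ x : F, v'.valuation F x = v.valuation F (σ x)) → w v' = w v

/-- The global root number: the product of the local root numbers at all places; it is `-1` at
every infinite place. -/
noncomputable def rootNumber (w : HeightOneSpectrum (𝓞 F) → ℤ) : ℤ :=
  (-1) ^ Nat.card (InfinitePlace F) * ∏ᶠ v, w v

/-- The group `E(F)`. -/
def Pts (p : ℤ × ℤ) : Type := ((curve p).baseChange F).toAffine.Point

noncomputable instance instPts (p : ℤ × ℤ) : AddCommGroup (Pts F p) :=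
  (inferInstance : AddCommGroup ((curve p).baseChange F).toAffine.Point)

/-- The rank of `E(F)`. -/
noncomputable def rank (p : ℤ × ℤ) : ℕ := Module.finrank ℤ (Pts F p)

/-- The parity conjecture holds for `E` over `F`, with even rank and root number `1`: `E(F)` is finitely
generated, its rank is even, and for every system of local root numbers (such systems exist, and there
are only finitely many primes with `w v ≠ 1`) `(-1) ^ rank = w(E / F)`. -/
structure ParityHolds (p : ℤ × ℤ) : Prop where
  fg : AddGroup.FG (Pts F p)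
  even : Even (rank F p)
  exist : ∃ w, LocalRootNumbers F (curve p) w
  finite : ∀ w, LocalRootNumbers F (curve p) w → {v | w v ≠ 1}.Finite
  one : ∀ w, LocalRootNumbers F (curve p) w → rootNumber F w = 1
  parity : ∀ w, LocalRootNumbers F (curve p) w → (-1) ^ rank F p = rootNumber F w

end defs

/-- The parity conjecture holds for `E` over all number fields `L` which contain `M`, have odd degree
over `M` and are Galois over `ℚ`, with even rank and root number `1`. -/
def ParityOverOdd (M : Type) [Field M] [NumberField M] (p : ℤ × ℤ) : Prop :=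
  ∀ (L : Type) [Field L] [NumberField L] [Algebra M L] [IsGalois ℚ L],
    Odd (Module.finrank M L) → ParityHolds L p

section tr

variable {F : Type} [Field F] [NumberField F]

theorem int_iff (v : HeightOneSpectrum (𝓞 F)) (W : WeierstrassCurve F) :
    IntegralAt v W ↔ Pool.Agent.N922.PX.IntegralAt v W :=
  ⟨fun h => ⟨h.1, h.2, h.3, h.4, h.5⟩, fun h => ⟨h.1, h.2, h.3, h.4, h.5⟩⟩

theorem good_iff (v : HeightOneSpectrum (𝓞 F)) (W : WeierstrassCurve F) :
    GoodReduction v W ↔ Pool.Agent.N922.PX.GoodReduction v W := by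
  unfold GoodReduction Pool.Agent.N922.PX.GoodReduction
  simp only [int_iff]

theorem split_iff (v : HeightOneSpectrum (𝓞 F)) (W : WeierstrassCurve F) :
    SplitMultiplicative v W ↔ Pool.Agent.N922.PX.SplitMultiplicative v W := by
  unfold SplitMultiplicative Pool.Agent.N922.PX.SplitMultiplicative
  simp only [int_iff]

theorem local_iff (p : ℤ × ℤ) (w : HeightOneSpectrum (𝓞 F) → ℤ) :
    LocalRootNumbers F (curve p) w ↔
      Pool.Agent.N922.PX.LocalRootNumbers F (Pool.Agent.N922.PX.curve p) w := by
  have e : curve p = Pool.Agent.N922.PX.curve p := rfl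
  rw [e]
  constructor
  · rintro ⟨h1, h2, h3, h4⟩
    exact ⟨h1, fun v h => h2 v ((good_iff v _).2 h), fun v h => h3 v ((split_iff v _).2 h), h4⟩
  · rintro ⟨h1, h2, h3, h4⟩
    exact ⟨h1, fun v h => h2 v ((good_iff v _).1 h), fun v h => h3 v ((split_iff v _).1 h), h4⟩

theorem fin_ne {p : ℤ × ℤ} (hp : 4 * p.1 ^ 3 + 27 * p.2 ^ 2 ≠ 0)
    {w : HeightOneSpectrum (𝓞 F) → ℤ} (h : LocalRootNumbers F (curve p) w) :
    {v | w v ≠ 1}.Finite := by
  have hc : (2 * (4 * p.1 ^ 3 + 27 * p.2 ^ 2) : ℤ) ≠ 0 := mul_ne_zero two_ne_zero hp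
  obtain ⟨r1, r2, -⟩ := Pool.Agent.N878.PX.t_rd F
  refine (r2 _ hc).subset fun v hv h7 => hv ?_
  exact h.good v ((good_iff v _).2 (r1 p v h7))

/-- Mordell-Weil -/
theorem pts_fg {p : ℤ × ℤ} (hp : 4 * p.1 ^ 3 + 27 * p.2 ^ 2 ≠ 0) : AddGroup.FG (Pts F p) := by
  have h := Pool.Agent.H64R2.DDMWK.mwk F p.1 p.2 hp
  have e : Pool.Agent.H925R3.DC.crv F (p.1 : F) (p.2 : F) = ((curve p).baseChange F).toAffine := by
    apply WeierstrassCurve.ext <;>
      simp [Pool.Agent.H925R3.DC.crv, curve, WeierstrassCurve.baseChange, WeierstrassCurve.toAffine]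
  exact Pool.Agent.H64R2.DDMWK.fg_of_eq e h

end tr

theorem crv_iff (X : ℕ) (p : ℤ × ℤ) : Pool.Agent.N922.PQ.Crv X p.1 p.2 ↔ p ∈ Curves X := by
  constructor
  · rintro ⟨h1, h2, h3, h4⟩
    exact ⟨⟨h1, h2⟩, max_le h3 h4⟩
  · rintro ⟨⟨h1, h2⟩, h3⟩
    exact ⟨h1, h2, (le_max_left _ _).trans h3, (le_max_right _ _).trans h3⟩

theorem nonempty {X : ℕ} (hX : 27 ≤ X) : ((1, 1) : ℤ × ℤ) ∈ Curves X := by
  refine ⟨⟨by norm_num, ?_⟩, ?_⟩
  · rintro p hp ⟨h, -⟩
    have h1 : ((p : ℤ)) ∣ 1 := (dvd_pow_self (p : ℤ) (by norm_num)).trans h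
    have h2 : p ∣ 1 := by exact_mod_cast h1
    exact hp.one_lt.ne' (Nat.dvd_one.1 h2)
  · have : height ((1, 1) : ℤ × ℤ) = 27 := by
      simp [height]
    rw [this]
    exact_mod_cast hX

/-- from `M` to the odd extensions -/
theorem parity_odd {M : Type} [Field M] [NumberField M] {p : ℤ × ℤ}
    (hp : 4 * p.1 ^ 3 + 27 * p.2 ^ 2 ≠ 0)
    (h0 : Subsingleton ((curve p).baseChange M).toAffine.Point)
    (h1 : ∀ w, LocalRootNumbers M (curve p) w → rootNumber M w = 1) : ParityOverOdd M p := by
  intro L _ _ _ _ hodd
  haveI : IsGalois M L := IsGalois.tower_top_of_isGalois ℚ M L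
  have hfg : AddGroup.FG (Pts L p) := pts_fg hp
  have heven : Even (rank L p) := by
    refine Run7.h262.PO.rank_even hodd (E := curve p) h0 ?_
    exact Module.Finite.iff_addGroup_fg.2 hfg
  have hfin : ∀ w, LocalRootNumbers L (curve p) w → {v | w v ≠ 1}.Finite := fun w hw => fin_ne hp hw
  have hone : ∀ w, LocalRootNumbers L (curve p) w → rootNumber L w = 1 := by
    intro w hw
    obtain ⟨u, hu, e⟩ := Run7.h262.PO.exists_root (M := M) hodd ((local_iff p w).1 hw) (hfin w hw)
    have e1 : rootNumber L w = Pool.Agent.N922.PX.rootNumber L w := rfl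
    have e2 : rootNumber M u = Pool.Agent.N922.PX.rootNumber M u := rfl
    rw [e1, e, ← e2]
    exact h1 u ((local_iff p u).2 hu)
  obtain ⟨w, hw'⟩ := Pool.Agent.N922.PX.exists_local L (Pool.Agent.N922.PX.curve p)
  refine ⟨hfg, heven, ⟨w, (local_iff p w).2 hw'⟩, hfin, hone, fun w hw => ?_⟩
  rw [hone w hw]
  exact heven.neg_one_pow

/-- Let `M / ℚ` be a Galois extension of degree `2 ^ n`, `n ≥ 1`, in which `2` is unramified
(that is, no prime ideal `𝔭` of `M` has `2 ∈ 𝔭 ^ 2`) and not inert (that is, the ideal `(2)` is not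
prime). There is `c > 0` such that for all large `X` at least `c` times the number of all elliptic curves
`E` over `ℚ` of height at most `X` satisfy the parity conjecture, with even rank and root number `1`,
over all number fields which contain `M`, have odd degree over `M` and are Galois over `ℚ`. -/
theorem result (M : Type) [Field M] [NumberField M] [IsGalois ℚ M] (n : ℕ) (h1 : 1 ≤ n)
    (hn : Module.finrank ℚ M = 2 ^ n)
    (h2 : ∀ 𝔭 : Ideal (𝓞 M), 𝔭.IsPrime → (2 : 𝓞 M) ∉ 𝔭 ^ 2)
    (h3 : ¬ (Ideal.span {(2 : 𝓞 M)}).IsPrime) :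
    (∀ X : ℕ, (Curves X).Finite) ∧
    ∃ c : ℝ, 0 < c ∧ ∀ᶠ X : ℕ in atTop,
      0 < (Curves X).ncard ∧
      c * ((Curves X).ncard : ℝ) ≤ (({p ∈ Curves X | ParityOverOdd M p}).ncard : ℝ) := by
  have hset : ∀ X : ℕ, Curves X = {p : ℤ × ℤ | Pool.Agent.N922.PQ.Crv X p.1 p.2} := by
    intro X
    ext p
    exact (crv_iff X p).symm
  have hfin : ∀ X : ℕ, (Curves X).Finite := fun X => by
    rw [hset]
    exact Pool.Agent.N922.PQ.crv_fin X
  refine ⟨hfin, ?_⟩
  obtain ⟨c, hc, X₀, h⟩ := Pool.Agent.N922.PX.final M hn h1 h2 h3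
  refine ⟨c, hc, ?_⟩
  filter_upwards [eventually_ge_atTop (max X₀ 27)] with X hX
  refine ⟨(Set.ncard_pos (hfin X)).2 ⟨_, nonempty ((le_max_right _ _).trans hX)⟩, ?_⟩
  have h4 := (h X ((le_max_left _ _).trans hX)).2
  rw [← hset] at h4
  refine h4.trans ?_
  have h5 : {p : ℤ × ℤ | Pool.Agent.N922.PQ.Crv X p.1 p.2 ∧
      (Pool.Agent.N922.PQ.GoodV (M := M) (𝓞 M) p ∧
        ∀ w : HeightOneSpectrum (𝓞 M) → ℤ,
          Pool.Agent.N922.PX.LocalRootNumbers M (Pool.Agent.N922.PX.curve p) w →
          Pool.Agent.N922.PX.rootNumber M w = 1)} ⊆ {p ∈ Curves X | ParityOverOdd M p} := by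
    rintro p ⟨hp, ⟨-, hd, -⟩, hw⟩
    refine ⟨(crv_iff X p).1 hp, ?_⟩
    have e : (Pool.Agent.N874.PP.sW (p.1 : M) (p.2 : M)).baseChange M =
        (curve p).baseChange M := by
      apply WeierstrassCurve.ext <;>
        simp [Pool.Agent.N874.PP.sW, curve, WeierstrassCurve.baseChange]
    have key : ∀ W : WeierstrassCurve M,
        (Pool.Agent.N874.PP.sW (p.1 : M) (p.2 : M)).baseChange M = W →
        Subsingleton W.toAffine.Point := by
      rintro W rfl
      exact hd
    have k1 : Subsingleton ((curve p).baseChange M).toAffine.Point := key _ e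
    exact parity_odd ((crv_iff X p).1 hp).1.elliptic k1 fun w h6 => hw w ((local_iff p w).1 h6)
  exact Nat.cast_le.2 (Set.ncard_le_ncard h5 ((hfin X).subset fun p hp => hp.1))

end Pool.Agent.Results.MP_ac3185_nt.ParityOverOddExtensions
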