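import Pool.Agent.Results.MP_cd906c_nt.StableTowersX15

/-!
# Parity for abelian varieties of any dimension and any rank over all number fields of one infinite tower

The class consists of the squarefree `n` congruent to `23` or `47` modulo `60`, and
`E_n : y² = x (x + 9 n) (x + 25 n)` is the quadratic twist by `-n` of `X_0(15)`, a curve without complex
multiplication (`MP_cd906c_nt/StableTowersX15`, whose definitions are used). For `b = (b_1, ..., b_g)` in the
class let `A_b = E_{b_1} × ... × E_{b_g}`, an abelian variety of dimension `g`; its rank over `F` is the sum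
of the ranks, and its L-function the product of the L-functions.

Let `A` be ANY set of numbers of the class with positive upper density. Then there is ONE sequence
`d_0 < d_1 < ...` of elements of `A` such that the field generated by the `√(d_i d_k)`, `i, k ≤ n`, has
degree `2 ^ n`, and for ALL `g` and ALL `b` there is `j` such that for all number fields `F` inside
`K_j = ℚ(√(d_i d_k) : i, k ≥ j)`:
* the order of vanishing of `L(A_b/F, s)` at `s = 1` is that of `L(A_b/ℚ, s)`, and the rank of `A_b(F)` is that of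
  `A_b(ℚ)`, whatever they are; so the congruence of order and rank modulo two, which is the parity conjecture
  in view of the functional equation, holds for `A_b` over `F` if and only if it holds over `ℚ`;
* if all the `E_{b_i}(ℚ)` are finite with `Ш(E_{b_i}/ℚ)[2^∞] = 0`, then the parity conjecture holds for `A_b`
  over `F`: the rank is zero, `A_b(F)` has `4 ^ g` elements, `L(A_b/F, 1) ≠ 0`, and every sign `w` in a
  functional equation of the completed L-function is `1 = (-1) ^ rank`.
-/

set_option autoImplicit false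

open NumberField WeierstrassCurve Filter Topology

namespace Pool.Agent.Results.MP_ac3185_nt.ProductsOverTowersX15

open Pool.Agent.Results.MP_cd906c_nt.StableTowersX15 (Class EF TrivialTwo PositiveUpperDensity
  pairField level)

open Classical in
/-- the rank of `A_b(F)` -/
noncomputable def rank (F : Type) [Field F] {g : ℕ} (b : Fin g → ℕ) : ℕ :=
  ∑ i, Module.finrank ℤ (EF F (b i)).toAffine.Point

/-- `Λ` is the entire continuation of `L(A_b/F, s)`. -/
def IsL (F : Type) [Field F] [NumberField F] {g : ℕ} (b : Fin g → ℕ) (Λ : ℂ → ℂ) : Prop :=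
  Differentiable ℂ Λ ∧ ∀ s : ℂ, 2 < s.re → Λ s = ∏ i, (EF F (b i)).LSeries s

/-- the completed L-function of an abelian variety of dimension `g` over a field of degree `m / g` -/
noncomputable def completed (N : ℝ) (m : ℕ) (Λ : ℂ → ℂ) (s : ℂ) : ℂ :=
  (N : ℂ) ^ (s / 2) * ((2 * Real.pi : ℂ) ^ (-s) * Complex.Gamma s) ^ m * Λ s

/-- `w` is the sign in a functional equation of the completed L-function, for some conductor `N`. -/
def IsSign (F : Type) [Field F] [NumberField F] {g : ℕ} (b : Fin g → ℕ) (w : ℂ) : Prop :=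
  ∃ (N : ℝ) (Λ : ℂ → ℂ), 0 < N ∧ IsL F b Λ ∧
    ∀ s : ℂ, completed N (g * Module.finrank ℚ F) Λ s =
      w * completed N (g * Module.finrank ℚ F) Λ (2 - s)

/-- Order of vanishing and rank of `A_b` are the same over `F` and over `ℚ`. -/
def Stable (F : Type) [Field F] [NumberField F] {g : ℕ} (b : Fin g → ℕ) : Prop :=
  (∃ Λ Λ₀ : ℂ → ℂ, IsL F b Λ ∧ IsL ℚ b Λ₀ ∧ analyticOrderAt Λ 1 = analyticOrderAt Λ₀ 1) ∧
    rank F b = rank ℚ b

open Classical in
/-- The parity conjecture for `A_b` over `F`, with rank zero. -/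
def ParityZero (F : Type) [Field F] [NumberField F] {g : ℕ} (b : Fin g → ℕ) : Prop :=
  rank F b = 0 ∧ Nat.card (∀ i, (EF F (b i)).toAffine.Point) = 4 ^ g ∧
    (∃ Λ : ℂ → ℂ, IsL F b Λ ∧ Λ 1 ≠ 0) ∧ ∀ w : ℂ, IsSign F b w → (-1) ^ rank F b = w

section proof

theorem le_pair {d : ℕ → ℕ} {i j : ℕ} (h : i ≤ j) : pairField d j ≤ pairField d i := by
  unfold pairField
  refine IntermediateField.adjoin.mono _ _ _ ?_
  rintro z ⟨a, c, ha, hc, hz⟩
  exact ⟨a, c, h.trans ha, h.trans hc, hz⟩

/-- the order of a product -/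
theorem order_prod {g : ℕ} {f h : Fin g → ℂ → ℂ} (hf : ∀ i, Differentiable ℂ (f i))
    (hh : ∀ i, Differentiable ℂ (h i)) (e : ∀ i, analyticOrderAt (f i) 1 = analyticOrderAt (h i) 1)
    (T : Finset (Fin g)) :
    analyticOrderAt (fun s => ∏ i ∈ T, f i s) 1 = analyticOrderAt (fun s => ∏ i ∈ T, h i s) 1 := by
  classical
  induction T using Finset.induction_on with
  | empty => simp
  | insert a T ha ih =>
    have e1 : (fun s => ∏ i ∈ insert a T, f i s) = f a * fun s => ∏ i ∈ T, f i s := by
      funext s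
      rw [Finset.prod_insert ha]
      rfl
    have e2 : (fun s => ∏ i ∈ insert a T, h i s) = h a * fun s => ∏ i ∈ T, h i s := by
      funext s
      rw [Finset.prod_insert ha]
      rfl
    have d1 : Differentiable ℂ fun s => ∏ i ∈ T, f i s :=
      Differentiable.fun_finsetProd fun i _ => hf i
    have d2 : Differentiable ℂ fun s => ∏ i ∈ T, h i s :=
      Differentiable.fun_finsetProd fun i _ => hh i
    rw [e1, e2, analyticOrderAt_mul ((hf a).analyticAt 1) (d1.analyticAt 1),
      analyticOrderAt_mul ((hh a).analyticAt 1) (d2.analyticAt 1), ih, e a]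

theorem fr_inst {M : Type} [Field M] {n : ℕ} (d d' : DecidableEq M) :
    @Module.finrank ℤ (EF M n).toAffine.Point _
      (@Affine.Point.instAddCommGroup M _ _ d).toAddCommMonoid
      (@AddCommGroup.toIntModule _ (@Affine.Point.instAddCommGroup M _ _ d)) =
    @Module.finrank ℤ (EF M n).toAffine.Point _
      (@Affine.Point.instAddCommGroup M _ _ d').toAddCommMonoid
      (@AddCommGroup.toIntModule _ (@Affine.Point.instAddCommGroup M _ _ d')) := by
  obtain rfl : d = d' := Subsingleton.elim _ _
  rfl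

theorem stable_of {F : Type} [Field F] [NumberField F] {g : ℕ} {b : Fin g → ℕ}
    (h : ∀ i, Pool.Agent.Results.MP_cd906c_nt.StableTowersX15.Stable F (b i)) : Stable F b := by
  choose hL hS using h
  choose f f₀ h1 h2 h3 h4 h5 using hL
  refine ⟨⟨fun s => ∏ i, f i s, fun s => ∏ i, f₀ i s,
    ⟨Differentiable.fun_finsetProd fun i _ => h1 i, fun s hs =>
      Finset.prod_congr rfl fun i _ => h3 i s hs⟩,
    ⟨Differentiable.fun_finsetProd fun i _ => h2 i, fun s hs =>
      Finset.prod_congr rfl fun i _ => h4 i s hs⟩, order_prod h1 h2 h5 Finset.univ⟩, ?_⟩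
  unfold rank
  refine Finset.sum_congr rfl fun i _ => ?_
  have h6 := congrArg Cardinal.toNat (hS i).2.1
  exact h6.trans (fr_inst _ _)

theorem one_of {F : Type} [Field F] [NumberField F] {g : ℕ} {b : Fin g → ℕ} {Λ : ℂ → ℂ}
    (hL : IsL F b Λ) (h1 : Λ 1 ≠ 0) {w : ℂ} (hw : IsSign F b w) : 1 = w := by
  obtain ⟨N, Λ', hN, hL', hf⟩ := hw
  have e : Λ' = Λ := by
    have a1 : AnalyticOnNhd ℂ Λ' Set.univ := fun z _ => hL'.1.analyticAt z
    have a2 : AnalyticOnNhd ℂ Λ Set.univ := fun z _ => hL.1.analyticAt z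
    refine a1.eq_of_eventuallyEq a2 (z₀ := 3) ?_
    have h2 : IsOpen {s : ℂ | 2 < s.re} := isOpen_lt continuous_const Complex.continuous_re
    filter_upwards [h2.mem_nhds (by norm_num : (3 : ℂ) ∈ {s : ℂ | 2 < s.re})] with s hs
    rw [hL'.2 s hs, hL.2 s hs]
  have h3 := hf 1
  have h4 : (2 : ℂ) - 1 = 1 := by norm_num
  rw [h4, e] at h3
  have h5 : completed N (g * Module.finrank ℚ F) Λ 1 ≠ 0 := by
    unfold completed
    refine mul_ne_zero (mul_ne_zero ?_ (pow_ne_zero _ (mul_ne_zero ?_ ?_))) h1
    · rw [Complex.cpow_ne_zero_iff]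
      exact Or.inl (by exact_mod_cast hN.ne')
    · rw [Complex.cpow_ne_zero_iff]
      exact Or.inl (by
        have : (Real.pi : ℂ) ≠ 0 := by exact_mod_cast Real.pi_ne_zero
        exact mul_ne_zero two_ne_zero this)
    · rw [Complex.Gamma_one]
      exact one_ne_zero
  have h6 : (1 - w) * completed N (g * Module.finrank ℚ F) Λ 1 = 0 := by
    linear_combination h3
  have h7 := (mul_eq_zero.1 h6).resolve_right h5
  exact sub_eq_zero.1 h7

theorem zero_of {F : Type} [Field F] [NumberField F] {g : ℕ} {b : Fin g → ℕ}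
    (h : ∀ i, Pool.Agent.Results.MP_cd906c_nt.StableTowersX15.RankFormula F (b i)) :
    ParityZero F b := by
  have hr : rank F b = 0 := by
    unfold rank
    refine Finset.sum_eq_zero fun i _ => ?_
    obtain ⟨Λ, h1, h2, h3, h4, h5⟩ := h i
    rw [analyticOrderAt_eq_zero.2 (Or.inr h4)] at h3
    exact_mod_cast h3.symm
  choose f h1 h2 h3 h4 h5 using h
  have hL : IsL F b fun s => ∏ i, f i s :=
    ⟨Differentiable.fun_finsetProd fun i _ => h1 i, fun s hs =>
      Finset.prod_congr rfl fun i _ => h2 i s hs⟩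
  have h6 : (fun s => ∏ i, f i s) 1 ≠ 0 := Finset.prod_ne_zero_iff.2 fun i _ => h4 i
  refine ⟨hr, ?_, ⟨_, hL, h6⟩, fun w hw => ?_⟩
  · rw [Nat.card_pi, Finset.prod_congr rfl fun i _ => h5 i, Finset.prod_const, Finset.card_univ,
      Fintype.card_fin]
  · rw [hr, pow_zero]
    exact one_of hL h6 hw

end proof

theorem result (A : Set ℕ) (hA : ∀ n ∈ A, Class n) (hd : PositiveUpperDensity A) :
    ∃ d : ℕ → ℕ, StrictMono d ∧ (∀ i, d i ∈ A) ∧ (∀ n, Module.finrank ℚ (level d n) = 2 ^ n) ∧
      ∀ (g : ℕ) (b : Fin g → ℕ), (∀ i, Class (b i)) → ∃ j,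
        ∀ (F : IntermediateField ℚ ℂ) [NumberField F], F ≤ pairField d j →
          Stable F b ∧ ((∀ i, TrivialTwo (b i)) → ParityZero F b) := by
  have h23 : Class 23 := by
    refine ⟨Nat.squarefree_iff_prime_squarefree.2 ?_, Or.inl rfl⟩
    intro x hx hd
    have h1 : x * x ≤ 23 := Nat.le_of_dvd (by norm_num) hd
    have h2 : x ≤ 4 := by nlinarith
    interval_cases x <;> revert hd hx <;> decide
  obtain ⟨d, h1, h2, h3, -, h4, -⟩ :=
    Pool.Agent.Results.MP_cd906c_nt.StableTowersX15.result A hA hd 23 h23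
  refine ⟨d, h1, h2, h3, fun g b hb => ?_⟩
  choose j hj using fun i => h4 (b i) (hb i)
  refine ⟨Finset.univ.sup j, fun F _ hF => ?_⟩
  have hle : ∀ i, F ≤ pairField d (j i) := fun i =>
    hF.trans (le_pair (Finset.le_sup (Finset.mem_univ i)))
  exact ⟨stable_of fun i => (hj i).1 F (hle i),
    fun ht => zero_of fun i => ((hj i).2.2 (ht i)).1 F (hle i)⟩

end Pool.Agent.Results.MP_ac3185_nt.ProductsOverTowersX15
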